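import Pool.Agent.Lib.MP_106504_lc.Dichotomy
import Pool.Agent.Lib.MP_106504_lc.Rank
import Pool.Agent.Lib.MP_106504_lc.LHB

/-!
# MP_106504_lc, Q1: the separation rank is characterised by the properties 1-5

For every `2 ≤ ξ < ω₁`, every rank `ρ` on the bounded Baire class `ξ` functions with the
properties 1-5 satisfies `ρ(f) ≈ α_ξ(f)` for all bounded Baire class `ξ` functions `f` on
Polish spaces.
-/

namespace Pool.Agent.Results.MP_106504_lc.SeparationRank

open Pool.Agent.MP106504 Ordinal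

/-- Bounded functions of Baire class `ξ` (iterated pointwise limits of continuous functions). -/
def BddBaire {X : Type} [TopologicalSpace X] (ξ : Ordinal.{0}) (f : X → ℝ) : Prop :=
  BaireLim ξ f ∧ ∃ C, ∀ x, |f x| ≤ C

/-- `ρ` is a rank on the bounded Baire class `ξ` functions on Polish spaces (with values below
`ω₁` there) which has the properties 1-5 of the problem. -/
structure RankWithProperties (ξ : Ordinal.{0})
    (ρ : ∀ (X : Type) [TopologicalSpace X] [PolishSpace X], (X → ℝ) → Ordinal.{0}) : Prop where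
  lt_omega_one : ∀ (X : Type) [TopologicalSpace X] [PolishSpace X] (f : X → ℝ),
    BddBaire ξ f → ρ X f < ω₁
  prop_one : ∀ (X : Type) [TopologicalSpace X] [PolishSpace X] (A : Set X),
    IsDelta (ξ + 1) A →
      EqAsymp (ρ X (A.indicator 1)) (funRank ξ (A.indicator (1 : X → ℝ)))
  prop_two_smul : ∀ (X : Type) [TopologicalSpace X] [PolishSpace X] (f : X → ℝ) (c : ℝ),
    c ≠ 0 → BddBaire ξ f → EqAsymp (ρ X (fun x => c * f x)) (ρ X f)
  prop_two_add : ∀ (X : Type) [TopologicalSpace X] [PolishSpace X] (f g : X → ℝ),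
    BddBaire ξ f → BddBaire ξ g → LeqAsymp (ρ X (fun x => f x + g x)) (max (ρ X f) (ρ X g))
  prop_three : ∀ (X : Type) [TopologicalSpace X] [PolishSpace X] (f : X → ℝ)
    (F : ℕ → X → ℝ), BddBaire ξ f → (∀ n, BddBaire ξ (F n)) →
      TendstoUniformly F f Filter.atTop → LeqAsymp (ρ X f) ((⨆ n, ρ X (F n) : Ordinal.{0}))
  prop_four : ∀ (X : Type) [TopologicalSpace X] [PolishSpace X] (f : X → ℝ) (h : ℝ → ℝ)
    (K : NNReal), BddBaire ξ f → LipschitzWith K h → LeqAsymp (ρ X (fun x => h (f x))) (ρ X f)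
  prop_five : ∀ (X : Type) [TopologicalSpace X] [PolishSpace X] (f : X → ℝ) (H : Set X)
    [PolishSpace H], BddBaire ξ f → IsPi 2 H → LeqAsymp (ρ H (fun x => f x.1)) (ρ X f)

theorem bddBaire_iff {X : Type} [TopologicalSpace X] [PolishSpace X] {ξ : Ordinal.{0}}
    (hξ : 1 ≤ ξ) (f : X → ℝ) : BddBaire ξ f ↔ BB ξ f := by
  constructor
  · rintro ⟨h1, h2⟩
    exact ⟨(baireLim_iff hξ h2).1 h1, h2⟩
  · rintro ⟨h1, h2⟩
    exact ⟨(baireLim_iff hξ h2).2 h1, h2⟩

theorem RankWithProperties.goodRank {ξ : Ordinal.{0}} (hξ : 1 ≤ ξ)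
    {ρ : ∀ (X : Type) [TopologicalSpace X] [PolishSpace X], (X → ℝ) → Ordinal.{0}}
    (h : RankWithProperties ξ ρ) : GoodRank ξ ρ where
  lt_omega_one := fun X _ _ f hf => h.lt_omega_one X f ((bddBaire_iff hξ f).2 hf)
  char := fun X _ _ A hA => h.prop_one X A hA
  smul := fun X _ _ f c hc hf => h.prop_two_smul X f c hc ((bddBaire_iff hξ f).2 hf)
  add := fun X _ _ f g hf hg =>
    h.prop_two_add X f g ((bddBaire_iff hξ f).2 hf) ((bddBaire_iff hξ g).2 hg)
  unif := fun X _ _ f F hf hF hu => h.prop_three X f F ((bddBaire_iff hξ f).2 hf)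
    (fun n => (bddBaire_iff hξ (F n)).2 (hF n)) hu
  lip := fun X _ _ f g K hf hg => h.prop_four X f g K ((bddBaire_iff hξ f).2 hf) hg
  restr := fun X _ _ f H _ hf hH => h.prop_five X f H ((bddBaire_iff hξ f).2 hf) hH

/-- Every rank with the properties 1-5 is equivalent to the separation rank. -/
theorem result (ξ : Ordinal.{0}) (h2 : 2 ≤ ξ) (hξ : ξ < ω₁)
    (ρ : ∀ (X : Type) [TopologicalSpace X] [PolishSpace X], (X → ℝ) → Ordinal.{0})
    (hρ : RankWithProperties ξ ρ) (X : Type) [TopologicalSpace X] [PolishSpace X] (f : X → ℝ)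
    (hf : BddBaire ξ f) : EqAsymp (ρ X f) (funRank ξ f) := by
  have h1 : (1 : Ordinal.{0}) ≤ ξ := le_trans (by exact_mod_cast one_le_two) h2
  have hdich : DichotomyStatement := dichotomy
  exact main_thm_of_dichotomy hdich ξ h2 hξ ρ (hρ.goodRank h1) X f ((bddBaire_iff h1 f).1 hf)

end Pool.Agent.Results.MP_106504_lc.SeparationRank
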